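import Mathlib
import Pool.Agent.Helper47.VG.Std

/-!
# Groups of semilinear automorphisms: the definitions used in the statement
-/

universe u v w

open CategoryTheory AlgebraicGeometry Limits

namespace Pool.Agent.Helper52.VG

open Pool.Agent.Helper10 Pool.Agent.Helper10.SmProjVar Pool.Agent.Helper47.Chow
open Pool.Agent.Helper47.Zero Pool.Agent.Helper47.VG

noncomputable section

variable {K : Type u} [Field K]

/-- `s` is the endomorphism `g × g` of `X × X`. -/
def IsSq (X : SmProjVar K) (g : X.toOver.left ⟶ X.toOver.left)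
    (s : (X.prod X).toOver.left ⟶ (X.prod X).toOver.left) : Prop :=
  s ≫ (fst X X).left = (fst X X).left ≫ g ∧ s ≫ (snd X X).left = (snd X X).left ≫ g

/-- The class `γ` on `X × X` is fixed by the group `Γ` of semilinear automorphisms of `X`
(automorphisms of the scheme `X` over automorphisms of `K`). -/
def FixedBy (X : SmProjVar K) (Γ : Subgroup (Aut (Arrow.mk X.toOver.hom)))
    (γ : CH (X.prod X)) : Prop :=
  ∀ g ∈ Γ, ∀ s, IsSq X g.hom.left s → ∀ z : QCycles (X.prod X), cls (X.prod X) z = γ →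
    imgCls (X.prod X) s z = γ

/-- The points of `X × X` have finite orbits under `Γ`. -/
def HasFiniteOrbits (X : SmProjVar K) (Γ : Subgroup (Aut (Arrow.mk X.toOver.hom))) : Prop :=
  ∀ x : (X.prod X).Pt, {y : (X.prod X).Pt | ∃ g ∈ Γ, ∃ s, IsSq X g.hom.left s ∧
    img s x = y}.Finite

variable {L : Type v} [Field L] [CharZero L] {W : WeilCohomology.{u, v, w} K L}

/-- The homologically trivial classes in `CH^d(X × X)`, `d = dim X`, which are fixed by `Γ` form a
nilpotent ring. -/
def FixedNil (C : ChowTheory W) (X : SmProjVar K)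
    (Γ : Subgroup (Aut (Arrow.mk X.toOver.hom))) : Prop :=
  ∃ N : ℕ, ∀ γ : ℕ → CH (X.prod X), (∀ i, HomTriv C (γ i) ∧ FixedBy X Γ (γ i)) →
    prodSeq C γ N = 0

/-- The classes in `CH^d(X × X)`, `d = dim X`, which are fixed by `Γ` are combinations of the
class of the diagonal and of exterior products. -/
def FixedDec (C : ChowTheory W) (X : SmProjVar K)
    (Γ : Subgroup (Aut (Arrow.mk X.toOver.hom))) : Prop :=
  ∀ γ ∈ CHi (X.prod X) X.dim, FixedBy X Γ γ → ∃ c : ℚ, γ - c • C.Δ X ∈
    Submodule.span ℚ {x | ∃ i j, i + j = X.dim ∧ ∃ b ∈ CHi X j, ∃ a ∈ CHi X i,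
      C.ops.mul (X.prod X) (C.ops.pull (fst X X) b) (C.ops.pull (snd X X) a) = x}

end

end Pool.Agent.Helper52.VG
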