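import Mathlib
import Pool.Agent.Helper47.Desc.Nil
import Pool.Agent.Helper47.VG.Bridge
import Pool.Agent.Helper47.VG.Level
import Pool.Agent.Helper52.VG.Desc

/-!
# Groups of semilinear automorphisms: comparison with the definitions used in the proofs
-/

universe u v w

open CategoryTheory AlgebraicGeometry Limits

namespace Pool.Agent.Helper52.VG

open Pool.Agent.Helper10 Pool.Agent.Helper10.SmProjVar Pool.Agent.Helper47.Chow
open Pool.Agent.Helper47.Zero Pool.Agent.Helper47.VG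
open Pool.Agent.Helper47.Desc (SemiAut prodSch prodSch_fst prodSch_snd hom_ext_sch)

variable {K : Type u} [Field K] {X : SmProjVar K}

lemma isSq_sq (g : SemiAut X) : IsSq X g.hom.left (Pool.Agent.Helper47.Desc.sq g).sch :=
  ⟨prodSch_fst g g rfl, prodSch_snd g g rfl⟩

lemma isSq_eq {g : SemiAut X} {s : (X.prod X).toOver.left ⟶ (X.prod X).toOver.left}
    (h : IsSq X g.hom.left s) : s = (Pool.Agent.Helper47.Desc.sq g).sch :=
  hom_ext_sch (h.1.trans (prodSch_fst g g rfl).symm) (h.2.trans (prodSch_snd g g rfl).symm)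

lemma fixedBy_iff {Γ : Subgroup (SemiAut X)} {γ : CH (X.prod X)} :
    FixedBy X Γ γ ↔ ∀ g ∈ Γ, (Pool.Agent.Helper47.Desc.sq g).chow γ = γ := by
  constructor
  · intro h g hg
    obtain ⟨z, rfl⟩ := exists_cls γ
    have h1 := h g hg _ (isSq_sq g) z rfl
    rwa [imgCls_eq] at h1
  · rintro h g hg s hs z rfl
    rw [isSq_eq hs, imgCls_eq]
    exact h g hg

lemma finiteOrbits_of {Γ : Subgroup (SemiAut X)} (h : HasFiniteOrbits X Γ) :
    Pool.Agent.Helper47.Desc.FiniteOrbits X Γ := by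
  intro x
  refine (h x).subset ?_
  rintro _ ⟨g, rfl⟩
  exact ⟨g.1, g.2, _, isSq_sq g.1, rfl⟩

variable {L : Type v} [Field L] [CharZero L] {W : WeilCohomology.{u, v, w} K L}
  {C : ChowTheory W}

lemma nilInv_of {Γ : Subgroup (SemiAut X)} (h : FixedNil C X Γ) :
    Pool.Agent.Helper47.Desc.NilInv C X Γ := by
  obtain ⟨N, hN⟩ := h
  refine ⟨N, fun l hl hh => ?_⟩
  rw [compList_eq, hl]
  refine hN _ fun i => ?_
  by_cases hi : i < l.reverse.length
  · rw [List.getD_eq_getElem _ _ hi]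
    obtain ⟨h1, h2, h3⟩ := hh _ (List.mem_reverse.mp (List.getElem_mem hi))
    exact ⟨⟨h1, h2⟩, fixedBy_iff.2 h3⟩
  · rw [List.getD_eq_default _ _ (not_lt.mp hi)]
    exact ⟨⟨(CHiL (X.prod X) X.dim).zero_mem, (C.cl (X.prod X)).map_zero⟩,
      fixedBy_iff.2 fun g _ => (Pool.Agent.Helper47.Desc.sq g).chow.map_zero⟩

lemma decInv_of {Γ : Subgroup (SemiAut X)} (h : FixedDec C X Γ) :
    Pool.Agent.Helper47.Desc.DecInv C X Γ := by
  intro γ hγ hΓ
  obtain ⟨c, hc⟩ := h γ hγ (fixedBy_iff.2 hΓ)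
  refine ⟨c, γ - c • C.Δ X, ?_, by abel⟩
  refine Submodule.span_mono ?_ hc
  rintro x ⟨i, j, hij, b, hb, a, ha, rfl⟩
  exact ⟨i, j, hij, b, hb, a, ha, rfl⟩

theorem descent (hC : IsNatural C) (Γ : Subgroup (SemiAut X)) (hfin : HasFiniteOrbits X Γ)
    (h : FixedNil C X Γ ∨
      FixedDec C X Γ ∧ ∃ x : W.H X, x ∉ Submodule.span L (Set.range (C.ops.cl X))) :
    NilHom C X ∧
    (∀ i π π', IsCK C X π → IsCK C X π' → C.MurreD X π i → C.MurreD X π' i) ∧
    (IsAlgOff C X → (∃ π, IsCK C X π) ∧ ∀ i, MurreDAll C X i ↔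
      (2 * i ≤ X.dim → ∀ a ∈ CHi X i, C.ops.cl X a = 0 → a = 0)) ∧
    (HasPicards C → ∀ t, t = 0 ∨ HasLevel C X t → X.dim ≤ 2 * t + 3 →
      IsAlgOff C X ∨ HasLefschetz C X → ∀ i, MurreDAll C X i) := by
  have hN : Pool.Agent.Helper47.Desc.NilHom C X :=
    Pool.Agent.Helper47.Desc.nilHom_of_nilInv (isEquivariant_of hC) Γ (finiteOrbits_of hfin)
      (h.elim nilInv_of fun h' =>
        Pool.Agent.Helper47.Desc.nilInv_of_decInv Γ (decInv_of h'.1) h'.2)
  refine ⟨nilHom_iff.2 hN, fun i π π' hπ hπ' hD =>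
      Pool.Agent.Helper47.Desc.murreD_of_nilHom hN i (isCK_iff.1 hπ) (isCK_iff.1 hπ') hD,
    fun hA => ⟨exists_isCK hA, fun i => ?_⟩, fun hP t ht hd hL i => murreD_all hN hP ht hd hL i⟩
  rw [← Pool.Agent.Helper47.Desc.offMiddle_of_nilHom hN (fun k hk x hx => hA k hk x hx) i]
  exact ⟨fun H π hπ => H π (isCK_iff.2 hπ), fun H π hπ => H π (isCK_iff.1 hπ)⟩

end Pool.Agent.Helper52.VG
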